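import Mathlib
import Pool.Agent.OpenShop.Decode
import Pool.Agent.OpenShop.Attained

/-!
# Unit-time open shop with release dates and weighted number of tardy jobs: W[1]-hardness

Instances, schedules, the optimal value `opt`, the binary code `encShop` of instances, instances
of `k`-Clique and their code `encClique` are in `Pool/Agent/OpenShop/Model.lean` (`opt_isLeast` in
`Pool/Agent/OpenShop/Attained.lean`: `opt I` is the minimum); `FPTComputable` (time
`g κ * |x| ^ c` with computable `g` and constant `c`) is in `Pool/Agent/Lib/PolyTime/FPTDef.lean`.
-/

namespace Pool.Agent.Results.MP_02da2b_lc.W1Hard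

open Pool.Agent.PolyTime Pool.Agent.OpenShop

open Classical in
/-- (1) There is a polynomial-time many-one reduction from `k`-Clique to the decision version of
`O | p_ij = 1, r_j | ∑ w_j U_j` which maps an instance with parameter `k` to an open shop with
`m = 2 k + 1` machines. (2) If the minimum of `∑ w_j U_j` can be computed in time
`f (m) * |I| ^ c` for a computable `f` and a constant `c`, then `k`-Clique can be decided in time
`g (k) * |x| ^ c'` for a computable `g` and a constant `c'`. -/
theorem result :
    (∃ (R : CliqueInst → Shop) (B : CliqueInst → ℕ) (F : List Bool → List Bool),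
      Nonempty (Turing.TM2ComputableInPolyTime (id : List Bool → List Bool)
        (id : List Bool → List Bool) F) ∧
      ∀ a, F (encClique a) = encNat (B a) ++ encShop (R a) ∧ (R a).m = 2 * a.k + 1 ∧
        (HasClique a ↔ opt (R a) ≤ B a)) ∧
    (FPTComputable encShop Shop.m (fun I => (opt I).bits) →
      FPTComputable encClique CliqueInst.k (fun a => [decide (HasClique a)])) := by
  refine ⟨⟨red, redB, redFB, redFB_poly.polyTime, fun a => ⟨redFB_enc a, red_m a, red_spec a⟩⟩,
    fun h => ?_⟩
  refine FPTComputable.transfer (h := fun k => 2 * k + 1) enc_ne ?_ redF_poly.polyTime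
    chk_poly.polyTime red redF_enc red_m ?_ h
  · exact (Primrec.nat_add.to_comp.comp (Primrec.nat_mul.to_comp.comp (Computable.const 2)
      Computable.id) (Computable.const 1))
  · intro a
    rw [chk_bits]
    congr 1
    rw [decide_eq_decide]
    exact red_low a

end Pool.Agent.Results.MP_02da2b_lc.W1Hard
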